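import Pool.Agent.H224.BM.Inp

/-!
# MP_5168f5: the Kakeya maximal function over bundles of parallel tubes

For a direction `e`, the supremum is taken over all `s`-dimensional bundles of parallel `δ`-tubes
in the direction `e` (instead of all single tubes) of the average over the bundle of the averages
of `|f|` over the tubes of the bundle.  For `s = n - 2` the estimate of the Kakeya maximal
conjecture holds for this operator in every dimension `n ≥ 3`, at every exponent `p ≥ 2`, with a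
loss which is a power of the logarithm of `1 / δ`.  In general, an estimate for the Kakeya maximal
function of `ℝ^d` gives the same estimate for the `j`-dimensional bundles of `ℝ^(j+d)`.
-/

set_option autoImplicit false

open MeasureTheory Set
open scoped ENNReal

namespace Pool.Agent.Results.MP_5168f5_an.ParallelBundles

/-- The closed cylinder of length `1` and radius `δ` with centre `a` and axis direction `e`. -/
def tube {n : ℕ} (δ : ℝ) (a e : EuclideanSpace ℝ (Fin n)) : Set (EuclideanSpace ℝ (Fin n)) :=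
  {y | |inner ℝ (y - a) e| ≤ 1 / 2 ∧ ‖(y - a) - (inner ℝ (y - a) e : ℝ) • e‖ ≤ δ}

/-- The average of `|f|` over a tube. -/
noncomputable def tubeAv {n : ℕ} (f : EuclideanSpace ℝ (Fin n) → ℝ) (δ : ℝ)
    (a e : EuclideanSpace ℝ (Fin n)) : ℝ≥0∞ :=
  (volume (tube δ a e))⁻¹ * ∫⁻ y in tube δ a e, ‖f y‖ₑ

/-- The Kakeya maximal function. -/
noncomputable def kakeyaMax {n : ℕ} (f : EuclideanSpace ℝ (Fin n) → ℝ) (δ : ℝ)
    (e : EuclideanSpace ℝ (Fin n)) : ℝ≥0∞ :=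
  ⨆ a : EuclideanSpace ℝ (Fin n), tubeAv f δ a e

/-- The measure `ν` is the distribution of the centres of an `s`-dimensional bundle of parallel
`δ`-tubes in the direction `e`, with constant `A`: its mass is at most `1` and, for all points `y`
and all `r ≥ δ`, the measure of the set of the centres at a distance at most `r` from the line
`y + ℝ e` is at most `A r ^ s`. -/
def IsBundle {n : ℕ} (s A δ : ℝ) (e : EuclideanSpace ℝ (Fin n))
    (ν : Measure (EuclideanSpace ℝ (Fin n))) : Prop :=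
  ν univ ≤ 1 ∧ ∀ (y : EuclideanSpace ℝ (Fin n)) (r : ℝ), δ ≤ r →
    ν {a | ‖(a - y) - (inner ℝ (a - y) e : ℝ) • e‖ ≤ r} ≤ ENNReal.ofReal (A * r ^ s)

/-- The maximal function over the `s`-dimensional bundles of parallel `δ`-tubes. -/
noncomputable def bundleMax {n : ℕ} (s A : ℝ) (f : EuclideanSpace ℝ (Fin n) → ℝ) (δ : ℝ)
    (e : EuclideanSpace ℝ (Fin n)) : ℝ≥0∞ :=
  ⨆ (ν : Measure (EuclideanSpace ℝ (Fin n))) (_ : IsBundle s A δ e ν), ∫⁻ a, tubeAv f δ a e ∂ν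

/-- Surface measure of the unit sphere. -/
noncomputable abbrev surf (n : ℕ) : Measure (Metric.sphere (0 : EuclideanSpace ℝ (Fin n)) 1) :=
  (volume : Measure (EuclideanSpace ℝ (Fin n))).toSphere

/-- The estimate `∫ (f*_δ) ^ p ≤ K ∫ |f| ^ p` of the Kakeya maximal function of `ℝ^n`. -/
def KakeyaBound (n : ℕ) (p δ K : ℝ) : Prop :=
  ∀ f : EuclideanSpace ℝ (Fin n) → ℝ, AEMeasurable f volume →
    ∫⁻ e, kakeyaMax f δ e ^ p ∂(surf n) ≤ ENNReal.ofReal K * ∫⁻ y, ‖f y‖ₑ ^ p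

/-- The same estimate for the maximal function over bundles (with a measurable majorant). -/
def BundleBound (n : ℕ) (s A p δ K : ℝ) : Prop :=
  ∀ f : EuclideanSpace ℝ (Fin n) → ℝ, AEMeasurable f volume →
    ∃ M : Metric.sphere (0 : EuclideanSpace ℝ (Fin n)) 1 → ℝ≥0∞, Measurable M ∧
      (∀ e : Metric.sphere (0 : EuclideanSpace ℝ (Fin n)) 1, bundleMax s A f δ e ≤ M e) ∧
      ∫⁻ e, M e ^ p ∂(surf n) ≤ ENNReal.ofReal K * ∫⁻ y, ‖f y‖ₑ ^ p

open Pool.Agent.H224.BM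

theorem av_eq {n : ℕ} (f : EuclideanSpace ℝ (Fin n) → ℝ) (δ : ℝ)
    (a e : EuclideanSpace ℝ (Fin n)) :
    tubeAv f δ a e = Pool.Agent.Q93.KF.av (fun y => ‖f y‖ₑ) δ a e := rfl

theorem kak_ennreal {d : ℕ} {p δ K : ℝ} (hp : 0 < p) (hK : 0 < K) (h : KakeyaBound d p δ K)
    (G : EuclideanSpace ℝ (Fin d) → ℝ≥0∞) (hG : Measurable G) :
    ∫⁻ e, mx G δ e ^ p ∂(surf d) ≤ ENNReal.ofReal K * ∫⁻ y, G y ^ p := by
  by_cases hfin : ∫⁻ y, G y ^ p = ∞
  · rw [hfin, ENNReal.mul_top (ENNReal.ofReal_pos.2 hK).ne']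
    exact le_top
  have h1 : ∀ᵐ y, G y ^ p < ∞ := ae_lt_top (hG.pow_const p) hfin
  have h2 : (fun y => ‖(G y).toReal‖ₑ) =ᵐ[volume] G := by
    filter_upwards [h1] with y hy
    have h3 : G y ≠ ∞ := by
      intro h4
      rw [h4, ENNReal.top_rpow_of_pos hp] at hy
      exact lt_irrefl _ hy
    rw [Real.enorm_eq_ofReal ENNReal.toReal_nonneg, ENNReal.ofReal_toReal h3]
  have h3 := h (fun y => (G y).toReal) hG.ennreal_toReal.aemeasurable
  have h4 : ∀ e, kakeyaMax (fun y => (G y).toReal) δ e = mx G δ e := by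
    intro e
    unfold kakeyaMax mx
    refine iSup_congr fun a => ?_
    rw [av_eq]
    exact Pool.Agent.Q93.KF.av_congr h2 δ a e
  have h5 : ∫⁻ y, ‖(G y).toReal‖ₑ ^ p = ∫⁻ y, G y ^ p := by
    refine lintegral_congr_ae ?_
    filter_upwards [h2] with y hy
    rw [hy]
  rw [h5] at h3
  simp_rw [h4] at h3
  exact h3

theorem bundle_of {n : ℕ} {s A p δ K : ℝ} (hp : 0 < p)
    (h : ∀ F : EuclideanSpace ℝ (Fin n) → ℝ≥0∞, Measurable F →
      ∃ M : Metric.sphere (0 : EuclideanSpace ℝ (Fin n)) 1 → ℝ≥0∞, Measurable M ∧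
      (∀ e : Metric.sphere (0 : EuclideanSpace ℝ (Fin n)) 1, bmax s A F δ e ^ p ≤ M e) ∧
      ∫⁻ e, M e ∂(surf n) ≤ ENNReal.ofReal K * ∫⁻ y, F y ^ p) :
    BundleBound n s A p δ K := by
  intro f hf
  obtain ⟨M, hM, hM1, hM2⟩ := h (fun y => ‖hf.mk f y‖ₑ) hf.measurable_mk.enorm
  have h2 : (fun y => ‖f y‖ₑ) =ᵐ[volume] fun y => ‖hf.mk f y‖ₑ := by
    filter_upwards [hf.ae_eq_mk] with y hy
    rw [← hy]
  refine ⟨fun e => M e ^ p⁻¹, hM.pow_const _, fun e => ?_, ?_⟩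
  · rw [ENNReal.le_rpow_inv_iff hp]
    refine le_trans (ENNReal.rpow_le_rpow ?_ hp.le) (hM1 e)
    refine iSup₂_le fun ν hν => ?_
    have h3 : ∫⁻ a, tubeAv f δ a e ∂ν =
        ∫⁻ a, Pool.Agent.Q93.KF.av (fun y => ‖hf.mk f y‖ₑ) δ a e ∂ν := by
      refine lintegral_congr fun a => ?_
      rw [av_eq]
      exact Pool.Agent.Q93.KF.av_congr h2 δ a e
    rw [h3]
    exact le_iSup₂ (f := fun (ν : Measure (EuclideanSpace ℝ (Fin n)))
      (_ : Pool.Agent.H224.BM.IsBundle s A δ (e : EuclideanSpace ℝ (Fin n)) ν) =>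
      ∫⁻ a, Pool.Agent.Q93.KF.av (fun y => ‖hf.mk f y‖ₑ) δ a e ∂ν) ν ⟨hν.1, hν.2⟩
  · have h4 : ∀ e, (M e ^ p⁻¹) ^ p = M e := fun e => by
      rw [← ENNReal.rpow_mul, inv_mul_cancel₀ hp.ne', ENNReal.rpow_one]
    rw [lintegral_congr h4]
    refine hM2.trans (le_of_eq ?_)
    congr 1
    refine lintegral_congr_ae ?_
    filter_upwards [h2] with y hy
    rw [hy]

theorem transfer (j d : ℕ) (hd : 2 ≤ d) : ∃ C : ℝ, 0 < C ∧ ∀ p s δ A K : ℝ, 2 ≤ p → s ≤ j →
    0 < δ → δ < 1 → 0 ≤ A → 0 < K → (∀ G : EuclideanSpace ℝ (Fin d) → ℝ≥0∞, Measurable G →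
      ∫⁻ e, mx G δ e ^ p ∂(surf d) ≤ ENNReal.ofReal K * ∫⁻ y, G y ^ p) →
    BundleBound (j + d) s A p δ
      (C ^ p * ((A + 1) * (1 + Real.log (1 / δ))) ^ (p - 1) * δ ^ (-((j : ℝ) - s)) * K) := by
  obtain ⟨m, rfl⟩ : ∃ m, d = m + 1 := ⟨d - 1, by omega⟩
  obtain ⟨C, hC, h⟩ := main_maj j m (by omega)
  refine ⟨C, hC, fun p s δ A K hp hs hδ hδ1 hA hK hmax => ?_⟩
  refine bundle_of (by linarith) fun F hF => ?_
  obtain ⟨M, hM, hM1, hM2⟩ := h p hp s δ A hs hδ hδ1 hA (ENNReal.ofReal K) hmax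
    ENNReal.ofReal_ne_top F hF
  refine ⟨M, hM, hM1, hM2.trans (le_of_eq ?_)⟩
  have hlog : 0 ≤ Real.log (1 / δ) := Real.log_nonneg (by rw [le_div_iff₀ hδ]; linarith)
  have hlam : 0 < δ ^ (-((j : ℝ) - s)) := Real.rpow_pos_of_pos hδ _
  rw [← mul_assoc, ← ENNReal.ofReal_mul (by positivity)]
  rfl

/-- **The maximal function over bundles of parallel tubes.**

* Let `d ≥ 2`, `j ≥ 0`, `p ≥ 2` and `s ≤ j`.  An estimate of the Kakeya maximal function of `ℝ^d`
  on `L^p` gives the same estimate for the maximal function over the `s`-dimensional bundles of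
  `ℝ^(j+d)`, with an additional factor `δ ^ (-(j - s))` and a power of the logarithm; there is no
  loss of a power of `δ` for `s = j`.
* Hence (`d = 2`), with no hypothesis: for all `n ≥ 2`, `p ≥ 2` and `s ≤ n - 2` the estimate
  holds with the loss `δ ^ (-(n - 2 - s))` and a power of the logarithm; for `s = n - 2` and
  `p = n` this is the estimate of the Kakeya maximal conjecture, for the bundles of dimension
  `n - 2`. -/
theorem result :
    (∀ j d : ℕ, 2 ≤ d → ∃ C : ℝ, 0 < C ∧ ∀ p s δ A K : ℝ, 2 ≤ p → s ≤ j → 0 < δ → δ < 1 →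
      0 ≤ A → 0 < K → KakeyaBound d p δ K → BundleBound (j + d) s A p δ
        (C ^ p * ((A + 1) * (1 + Real.log (1 / δ))) ^ (p - 1) * δ ^ (-((j : ℝ) - s)) * K)) ∧
    (∀ n : ℕ, 2 ≤ n → ∃ C : ℝ, 0 < C ∧ ∀ p s δ A : ℝ, 2 ≤ p → s ≤ (n : ℝ) - 2 → 0 < δ → δ < 1 →
      0 ≤ A → BundleBound n s A p δ
        (C ^ p * (A + 1) ^ (p - 1) * (1 + Real.log (1 / δ)) ^ p * δ ^ (-((n : ℝ) - 2 - s)))) := by
  refine ⟨?_, ?_⟩
  · intro j d hd
    obtain ⟨C, hC, h⟩ := transfer j d hd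
    refine ⟨C, hC, fun p s δ A K hp hs hδ hδ1 hA hK hmax => ?_⟩
    exact h p s δ A K hp hs hδ hδ1 hA hK (kak_ennreal (by linarith) hK hmax)
  · intro n hn
    obtain ⟨j, rfl⟩ : ∃ j, n = j + 2 := ⟨n - 2, by omega⟩
    obtain ⟨C, hC, h⟩ := transfer j 2 le_rfl
    obtain ⟨C', hC', h'⟩ := planar2
    have hm0 : (0 : ℝ) < max 1 C' := lt_of_lt_of_le one_pos (le_max_left _ _)
    refine ⟨C * max 1 C', by positivity, fun p s δ A hp hs hδ hδ1 hA => ?_⟩
    have hlog : 0 ≤ Real.log (1 / δ) := Real.log_nonneg (by rw [le_div_iff₀ hδ]; linarith)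
    have hs' : s ≤ (j : ℝ) := by push_cast at hs; linarith
    have h1 := h p s δ A (C' * (1 + Real.log (1 / δ))) hp hs' hδ hδ1 hA (by positivity)
      (fun G hG => est_up (by norm_num) hp hδ (h' δ hδ hδ1) G hG)
    intro f hf
    obtain ⟨M, hM, hM1, hM2⟩ := h1 f hf
    refine ⟨M, hM, hM1, hM2.trans ?_⟩
    gcongr ENNReal.ofReal ?_ * _
    have hL : (0 : ℝ) < 1 + Real.log (1 / δ) := by linarith
    have e1 : ((A + 1) * (1 + Real.log (1 / δ))) ^ (p - 1) =
        (A + 1) ^ (p - 1) * (1 + Real.log (1 / δ)) ^ (p - 1) :=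
      Real.mul_rpow (by linarith) hL.le
    have e2 : (1 + Real.log (1 / δ)) ^ (p - 1) * (1 + Real.log (1 / δ)) =
        (1 + Real.log (1 / δ)) ^ p := by
      rw [← Real.rpow_add_one hL.ne']
      congr 1
      ring
    have e3 : (C * max 1 C') ^ p = C ^ p * max 1 C' ^ p := Real.mul_rpow hC.le hm0.le
    have e4 : C' ≤ max 1 C' ^ p := by
      calc C' ≤ max 1 C' := le_max_right _ _
        _ = max 1 C' ^ (1 : ℝ) := (Real.rpow_one _).symm
        _ ≤ max 1 C' ^ p := Real.rpow_le_rpow_of_exponent_le (le_max_left _ _) (by linarith)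
    have e5 : (-(((j + 2 : ℕ) : ℝ) - 2 - s)) = -((j : ℝ) - s) := by push_cast; ring
    rw [e1, e3, e5, ← e2]
    have hlam : 0 < δ ^ (-((j : ℝ) - s)) := Real.rpow_pos_of_pos hδ _
    calc C ^ p * ((A + 1) ^ (p - 1) * (1 + Real.log (1 / δ)) ^ (p - 1)) * δ ^ (-((j : ℝ) - s)) *
          (C' * (1 + Real.log (1 / δ)))
        = C ^ p * C' * (A + 1) ^ (p - 1) *
          ((1 + Real.log (1 / δ)) ^ (p - 1) * (1 + Real.log (1 / δ))) * δ ^ (-((j : ℝ) - s)) := by
          ring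
      _ ≤ C ^ p * max 1 C' ^ p * (A + 1) ^ (p - 1) *
          ((1 + Real.log (1 / δ)) ^ (p - 1) * (1 + Real.log (1 / δ))) * δ ^ (-((j : ℝ) - s)) := by
          gcongr

end Pool.Agent.Results.MP_5168f5_an.ParallelBundles
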