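import Pool.Agent.H737.KP.EquivK

set_option autoImplicit false

/-!
MP_5168f5_an (the Kakeya maximal function conjecture): the conjecture holds for functions which
are dense in plates, and every `L^p` bound is equivalent to its restriction to plate-sparse sets.

A `k`-plate is the `ρ`-neighbourhood of a `k`-dimensional disc of radius `R`, `δ ≤ ρ ≤ R ≤ 1`.

1. For functions whose superlevel sets are `κ`-dense in some `k`-plate of radius at least `a`
   around almost each of their points the Kakeya maximal function is bounded on `L^p`, for all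
   `p ≥ 1` (also for `p < n`) and for tubes of any width, with the loss
   `(1 + log (1/δ))^2 δ^{-(n-1-k)} a^{-2k} κ^{-2}`; for hyperplane plates, `k = n - 1`, no power
   of `δ` is lost.
2. For all `p > 1` and `β ≥ 0` the bound `‖f*_δ‖_p ≤ C_ε δ^{-β-ε} ‖f‖_p` for all `f` is
   equivalent to its restriction to the indicator functions of sets `A` in a ball of radius `2`
   which fill at most the proportion `δ^{η + (pβ - (n-1-k))/2}` of each `k`-plate of thickness at
   least `δ` and radius in `[δ^η, 1]`, for each integer `k ≥ n - 1 - pβ`. The Kakeya maximal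
   function conjecture in `ℝ^n` is `p = n`, `β = 0` (hyperplane plates, proportion `δ^η`); for the
   bound `p = d`, `β = n/d - 1` of dimension `d` these are the `k`-plates with `k ≥ d - 1` and the
   proportion `δ^{η + (k+1-d)/2}`.

The proof bounds the composition of the Kakeya maximal operator with the maximal operator over
all `k`-plates on `L^2` (`Pool.Agent.H737.KP.comp_p`).
-/

open MeasureTheory Set Metric
open scoped ENNReal

namespace Pool.Agent.Results.MP_5168f5_an.PlateDensity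

/-- The closed cylinder of length `1` and radius `r` with axis in direction `e` centred at `a`. -/
def tube {n : ℕ} (r : ℝ) (e a : EuclideanSpace ℝ (Fin n)) : Set (EuclideanSpace ℝ (Fin n)) :=
  {y | |inner ℝ (y - a) e| ≤ 1 / 2 ∧ ‖(y - a) - (inner ℝ (y - a) e : ℝ) • e‖ ≤ r}

/-- The Kakeya maximal function with tubes of radius `r`: the supremum over `a` of the average of
`|f|` over `tube r e a`. -/
noncomputable def kakeyaMax {n : ℕ} (r : ℝ) (f : EuclideanSpace ℝ (Fin n) → ℝ)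
    (e : EuclideanSpace ℝ (Fin n)) : ℝ≥0∞ :=
  ⨆ a : EuclideanSpace ℝ (Fin n), (volume (tube r e a))⁻¹ * ∫⁻ y in tube r e a, ‖f y‖ₑ

/-- The surface measure of the unit sphere. -/
noncomputable def surf (n : ℕ) : Measure (sphere (0 : EuclideanSpace ℝ (Fin n)) 1) :=
  (volume : Measure (EuclideanSpace ℝ (Fin n))).toSphere

/-- The plate of thickness `ρ`, radius `R`, centre `c` and direction `V`: the points at distance
less than `ρ` from the affine subspace `c + V` and at distance less than `R` from `c`. -/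
def plate {n : ℕ} (ρ R : ℝ) (V : Submodule ℝ (EuclideanSpace ℝ (Fin n)))
    (c : EuclideanSpace ℝ (Fin n)) : Set (EuclideanSpace ℝ (Fin n)) :=
  {x | (∃ v ∈ V, ‖x - c - v‖ < ρ) ∧ ‖x - c‖ < R}

/-- Almost every point of each superlevel set `{|f| > t}` lies in a plate, with direction of
dimension `k`, thickness `ρ` and radius `R`, `δ ≤ ρ ≤ R`, `a ≤ R ≤ 1`, of which the superlevel set
fills at least the proportion `κ`. -/
def PlateDense {n : ℕ} (k : ℕ) (δ a κ : ℝ) (f : EuclideanSpace ℝ (Fin n) → ℝ) : Prop :=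
  ∀ᵐ x, ∀ t : ℝ, 0 < t → t < |f x| → ∃ (V : Submodule ℝ (EuclideanSpace ℝ (Fin n)))
    (c : EuclideanSpace ℝ (Fin n)) (ρ R : ℝ), Module.finrank ℝ V = k ∧ δ ≤ ρ ∧ ρ ≤ R ∧
    a ≤ R ∧ R ≤ 1 ∧ x ∈ plate ρ R V c ∧
    ENNReal.ofReal κ * volume (plate ρ R V c) ≤ volume (plate ρ R V c ∩ {y | t < |f y|})

/-- The set fills at most the proportion `κ` of each plate with direction of dimension `k`,
thickness `ρ` and radius `R`, `δ ≤ ρ ≤ R`, `a ≤ R ≤ 1`. -/
def PlateSparse {n : ℕ} (k : ℕ) (δ a κ : ℝ) (A : Set (EuclideanSpace ℝ (Fin n))) : Prop :=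
  ∀ (V : Submodule ℝ (EuclideanSpace ℝ (Fin n))) (c : EuclideanSpace ℝ (Fin n)) (ρ R : ℝ),
    Module.finrank ℝ V = k → δ ≤ ρ → ρ ≤ R → a ≤ R → R ≤ 1 →
    volume (plate ρ R V c ∩ A) ≤ ENNReal.ofReal κ * volume (plate ρ R V c)

/-- `‖f*_δ‖_p ≤ C_ε δ^{-β-ε} ‖f‖_p` for all `ε > 0`, `0 < δ < 1` and all `f`. For `p = n` and
`β = 0` this is the Kakeya maximal function conjecture in dimension `n`. -/
def KakeyaBound (n : ℕ) (p β : ℝ) : Prop :=
  ∀ ε : ℝ, 0 < ε → ∃ C : ℝ, 0 < C ∧ ∀ δ : ℝ, 0 < δ → δ < 1 →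
    ∀ f : EuclideanSpace ℝ (Fin n) → ℝ, AEMeasurable f volume →
      (∫⁻ e, kakeyaMax δ f (e : EuclideanSpace ℝ (Fin n)) ^ p ∂(surf n)) ^ (1 / p) ≤
        ENNReal.ofReal (C * δ ^ (-β - ε)) * (∫⁻ y, ‖f y‖ₑ ^ p) ^ (1 / p)

/-- The restriction of `KakeyaBound n p β` to the indicator functions of the subsets of a ball of
radius `2` which fill at most the proportion `δ^{η + (pβ - (n-1-k))/2}` of each plate of thickness
at least `δ`, radius between `δ^η` and `1`, and direction of dimension `k`, for all `k < n` with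
`k ≥ 1` and `k ≥ n - 1 - pβ`, for each `η > 0` (the constant may depend on `η`). -/
def SparseKakeyaBound (n : ℕ) (p β : ℝ) : Prop :=
  ∀ ε η : ℝ, 0 < ε → 0 < η → ∃ C : ℝ, 0 < C ∧ ∀ δ : ℝ, 0 < δ → δ < 1 →
    ∀ A : Set (EuclideanSpace ℝ (Fin n)), MeasurableSet A → A ⊆ ball 0 2 →
      (∀ k : ℕ, 1 ≤ k → k < n → (n:ℝ) - 1 - p * β ≤ k →
        PlateSparse k δ (δ ^ η) (δ ^ (η + (p * β - ((n:ℝ) - 1 - k)) / 2)) A) →
      (∫⁻ e, kakeyaMax δ (A.indicator 1) (e : EuclideanSpace ℝ (Fin n)) ^ p ∂(surf n)) ^ (1 / p) ≤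
        ENNReal.ofReal (C * δ ^ (-β - ε)) * volume A ^ (1 / p)

theorem result (n : ℕ) (hn : 2 ≤ n) :
    (∃ C : ℝ, 0 < C ∧ ∀ k : ℕ, 1 ≤ k → k < n → ∀ δ a : ℝ, 0 < δ → δ ≤ 1 → 0 < a → a ≤ 1 →
      ∀ p κ r : ℝ, 1 ≤ p → 0 < κ → 0 < r → ∀ f : EuclideanSpace ℝ (Fin n) → ℝ,
        AEMeasurable f volume → PlateDense k δ a κ f →
        ∫⁻ e : sphere (0 : EuclideanSpace ℝ (Fin n)) 1,
          kakeyaMax r f (e : EuclideanSpace ℝ (Fin n)) ^ p ∂(surf n) ≤
          ENNReal.ofReal (C * ((1 + Real.log (1 / δ)) ^ 2 * δ ^ (-((n:ℝ) - 1 - k)) *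
            a ^ (-(2 * (k:ℝ)))) / κ ^ 2) * ∫⁻ x, ‖f x‖ₑ ^ p) ∧
    (∀ p β : ℝ, 1 < p → 0 ≤ β → (KakeyaBound n p β ↔ SparseKakeyaBound n p β)) := by
  refine ⟨⟨2 * H737.KP.cst3 n, ?_, ?_⟩, ?_⟩
  · have := H737.KP.cst3_pos (n := n) (by omega)
    positivity
  · intro k hk hkn δ a hδ hδ1 ha ha1 p κ r hp hκ hr f hf hd
    exact H737.KP.dense_est (n := n) (k := k) (m := n - k) (by omega) hk (by omega)
      hδ hδ1 ha ha1 hκ hr hp hf hd
  · intro p β hp hβ
    exact H737.KP.equivalence_k hn hp hβ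

end Pool.Agent.Results.MP_5168f5_an.PlateDensity
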