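import Pool.Agent.H222.KP.Sharp
import Pool.Graph.R_pool_sql_team_seeded_1acbe0a2.Results.MP_5168f5_an.WolffRangeMaximal

/-!
# The Kakeya maximal function conjecture is a statement about segments and polynomials

For a real polynomial `P` in `n` variables let `segmentMax P e` be the supremum of the integrals of
`|P|` over the unit segments of direction `e` with the midpoint in the cube `[-1/2, 1/2]^n`. No
thickening of the segments is involved; the degree `D` of `P` replaces the parameter `1 / δ`.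

* For all `n` and all `p ≥ 1` the best constant in the inequality `∫ (f*_δ)^p ≤ A ∫ |f|^p`,
  `δ = 1 / D`, for all functions `f ∈ L^p(ℝ^n)`, and the best constant in the inequality
  `∫ (segmentMax P)^p ≤ B ∫ |P|^p` (the integral on the right side over the cube `[-2, 2]^n`) for all
  real polynomials `P` of degree at most `D` are the same, up to constant factors in front of the
  constants and of `D`. In the second inequality it is enough to consider polynomials which are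
  nonnegative on the whole space.
* So the growth exponents of the constants, in `1 / δ` and in `D`, are equal, and Q1 holds if and
  only if `∫ (segmentMax P)^n ≤ C_ε D^ε ∫ |P|^n` for the polynomials of degree at most `D`.
* In the range of Wolff, `n ≥ 3`, `1 < p < (n + 2) / 2`, this gives the unconditional inequality
  `∫ (segmentMax P)^p ≤ C D^(n - p) ∫ |P|^p`, and the power `D^(n - p)` is the best possible (for all
  `n` and `p ≥ 1`).
-/

open MeasureTheory Set Filter Metric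
open scoped ENNReal NNReal Topology

namespace Pool.Agent.Results.MP_5168f5_an.SegmentsAndPolynomials

/-- Euclidean space `ℝ^n` -/
abbrev Eu (n : ℕ) := EuclideanSpace ℝ (Fin n)

/-- the tube of length one and radius `δ` with direction `e` and centre `a` -/
def tube {n : ℕ} (δ : ℝ) (e a : Eu n) : Set (Eu n) :=
  {y | |inner ℝ (y - a) e| ≤ 1 / 2 ∧ ‖(y - a) - (inner ℝ (y - a) e : ℝ) • e‖ ≤ δ}

/-- the Kakeya maximal function `f*_δ` -/
noncomputable def kakeyaMax {n : ℕ} (δ : ℝ) (f : Eu n → ℝ) (e : Eu n) : ℝ≥0∞ :=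
  ⨆ a : Eu n, (volume (tube δ e a))⁻¹ * ∫⁻ y in tube δ e a, ‖f y‖ₑ

/-- the surface measure of the unit sphere -/
noncomputable abbrev surf (n : ℕ) : Measure (sphere (0 : Eu n) 1) :=
  (volume : Measure (Eu n)).toSphere

/-- the cube `[-r, r]^n` -/
def cube (n : ℕ) (r : ℝ) : Set (Eu n) := {x | ∀ i, |x i| ≤ r}

/-- the value of a polynomial at a point -/
noncomputable def val {n : ℕ} (P : MvPolynomial (Fin n) ℝ) (x : Eu n) : ℝ :=
  MvPolynomial.eval (fun i => x i) P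

/-- the supremum of the integrals of `|P|` over the unit segments of direction `e` with the midpoint
in the cube `[-1/2, 1/2]^n` -/
noncomputable def segmentMax {n : ℕ} (P : MvPolynomial (Fin n) ℝ) (e : Eu n) : ℝ≥0∞ :=
  ⨆ a ∈ cube n (1 / 2), ∫⁻ s in Icc (-(1 / 2) : ℝ) (1 / 2), ‖val P (a + s • e)‖ₑ

/-- `∫ (f*_δ)^p ≤ A ∫ |f|^p` for all `f ∈ L^p(ℝ^n)` -/
def TubeBound (n : ℕ) (p δ : ℝ) (A : ℝ≥0∞) : Prop :=
  ∀ f : Eu n → ℝ, MemLp f (ENNReal.ofReal p) →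
    ∫⁻ e, kakeyaMax δ f (e : Eu n) ^ p ∂(surf n) ≤ A * ∫⁻ y, ‖f y‖ₑ ^ p

/-- `∫ (segmentMax P)^p ≤ B ∫ |P|^p` for all real polynomials `P` of degree at most `D` -/
def PolyBound (n : ℕ) (p : ℝ) (D : ℕ) (B : ℝ≥0∞) : Prop :=
  ∀ P : MvPolynomial (Fin n) ℝ, P.totalDegree ≤ D →
    ∫⁻ e, segmentMax P (e : Eu n) ^ p ∂(surf n) ≤ B * ∫⁻ y in cube n 2, ‖val P y‖ₑ ^ p

/-- the same for the polynomials which are nonnegative on `ℝ^n` -/
def NonnegPolyBound (n : ℕ) (p : ℝ) (D : ℕ) (B : ℝ≥0∞) : Prop :=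
  ∀ P : MvPolynomial (Fin n) ℝ, P.totalDegree ≤ D → (∀ x : Eu n, 0 ≤ val P x) →
    ∫⁻ e, segmentMax P (e : Eu n) ^ p ∂(surf n) ≤ B * ∫⁻ y in cube n 2, ‖val P y‖ₑ ^ p

/-- the assertion of Q1 in dimension `n` -/
def KakeyaMaximalConjecture (n : ℕ) : Prop :=
  ∀ ε : ℝ, 0 < ε → ∃ C : ℝ, ∀ δ : ℝ, 0 < δ → δ < 1 → ∀ f : Eu n → ℝ, MemLp f n →
    (∫⁻ e, kakeyaMax δ f (e : Eu n) ^ (n : ℝ) ∂(surf n)) ^ (1 / (n : ℝ)) ≤
      ENNReal.ofReal (C * δ ^ (-ε)) * eLpNorm f n volume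

open Pool.Agent.H222.KP

variable {n : ℕ}

theorem kakeyaMax_eq (δ : ℝ) (f : Eu n → ℝ) (e : Eu n) :
    kakeyaMax δ f e = kmax δ (fun y => ‖f y‖ₑ) e := rfl

theorem segmentMax_eq (P : MvPolynomial (Fin n) ℝ) (e : Eu n) : segmentMax P e = smax P e := rfl

theorem kmax_congr {δ : ℝ} {f g : Eu n → ℝ≥0∞} (h : f =ᵐ[volume] g) (e : Eu n) :
    kmax δ f e = kmax δ g e := by
  unfold kmax
  congr 1
  funext a
  congr 1
  exact lintegral_congr_ae (ae_restrict_of_ae h)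

theorem lint_fin {p : ℝ} (hp : 1 ≤ p) {f : Eu n → ℝ} (hf : MemLp f (ENNReal.ofReal p)) :
    ∫⁻ y, ‖f y‖ₑ ^ p ≠ ∞ := by
  have h := hf.2
  have hp0 : 0 < p := by linarith
  have h1 : ENNReal.ofReal p ≠ 0 := (ENNReal.ofReal_pos.2 hp0).ne'
  have h2 := lintegral_rpow_enorm_lt_top_of_eLpNorm_lt_top h1 ENNReal.ofReal_ne_top h
  rw [ENNReal.toReal_ofReal hp0.le] at h2
  exact h2.ne

/-- from polynomials to tubes -/
theorem tube_of_poly (hn : 1 ≤ n) {p : ℝ} (hp : 1 ≤ p) : ∃ C : ℝ≥0, ∀ δ : ℝ, 0 < δ → δ ≤ 1 →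
    ∀ D : ℕ, 4 * n / δ ≤ D → ∀ B : ℝ≥0∞, NonnegPolyBound n p D B → TubeBound n p δ (C * B) := by
  obtain ⟨C, hC⟩ := bwd hn hp
  refine ⟨C, fun δ hδ hδ1 D hD B hB f hf => ?_⟩
  set g := hf.1.mk f with hg
  have hgm : Measurable g := hf.1.stronglyMeasurable_mk.measurable
  have hfg : f =ᵐ[volume] g := hf.1.ae_eq_mk
  have h1 : (fun y => ‖f y‖ₑ) =ᵐ[volume] fun y => ‖g y‖ₑ := hfg.fun_comp _
  have h2 : ∫⁻ y, ‖f y‖ₑ ^ p = ∫⁻ y, ‖g y‖ₑ ^ p :=
    lintegral_congr_ae (h1.fun_comp (fun x => x ^ p))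
  have h3 := hC δ hδ hδ1 D hD B hB (fun y => ‖g y‖ₑ) hgm.enorm (by
    rw [← h2]; exact lint_fin hp hf)
  rw [h2]
  refine le_trans (le_of_eq ?_) h3
  refine lintegral_congr fun e => ?_
  rw [kakeyaMax_eq, kmax_congr h1]

/-- from tubes to polynomials -/
theorem poly_of_tube (hn : 1 ≤ n) {p : ℝ} (hp : 1 ≤ p) : ∃ C : ℝ≥0, ∀ D : ℕ, 1 ≤ D →
    ∀ A : ℝ≥0∞, TubeBound n p (1 / D) A → PolyBound n p D (C * A) := by
  obtain ⟨C, hC⟩ := fwd hn hp
  have hp0 : 0 < p := by linarith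
  refine ⟨C, fun D hD A hA P hP => hC D hD A (fun f hf hfp => ?_) P hP⟩
  have hft : ∀ᵐ y, f y < ∞ := by
    have h1 := ae_lt_top (hf.pow_const p) hfp
    filter_upwards [h1] with y hy
    by_contra h
    rw [not_lt, top_le_iff] at h
    rw [h, ENNReal.top_rpow_of_pos hp0] at hy
    exact lt_irrefl _ hy
  have h1 : (fun y => ‖(f y).toReal‖ₑ) =ᵐ[volume] f := by
    filter_upwards [hft] with y hy
    rw [← ofReal_norm, Real.norm_of_nonneg ENNReal.toReal_nonneg, ENNReal.ofReal_toReal hy.ne]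
  have h2 : ∫⁻ y, ‖(f y).toReal‖ₑ ^ p = ∫⁻ y, f y ^ p :=
    lintegral_congr_ae (h1.fun_comp (fun x => x ^ p))
  have h3 : MemLp (fun y => (f y).toReal) (ENNReal.ofReal p) := by
    refine ⟨hf.ennreal_toReal.aestronglyMeasurable, ?_⟩
    rw [eLpNorm_lt_top_iff_lintegral_rpow_enorm_lt_top (ENNReal.ofReal_pos.2 hp0).ne'
      ENNReal.ofReal_ne_top, ENNReal.toReal_ofReal hp0.le, h2]
    exact hfp.lt_top
  have h4 := hA _ h3
  rw [h2] at h4
  refine le_trans (le_of_eq ?_) h4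
  refine lintegral_congr fun e => ?_
  rw [kakeyaMax_eq, kmax_congr h1]

theorem PolyBound.mono {p : ℝ} {D D' : ℕ} {B B' : ℝ≥0∞} (h : PolyBound n p D B) (hD : D' ≤ D)
    (hB : B ≤ B') : PolyBound n p D' B' :=
  fun P hP => (h P (hP.trans hD)).trans (mul_le_mul' hB le_rfl)

theorem TubeBound.mono {p δ : ℝ} {A A' : ℝ≥0∞} (h : TubeBound n p δ A) (hA : A ≤ A') :
    TubeBound n p δ A' :=
  fun f hf => (h f hf).trans (mul_le_mul' hA le_rfl)

/-- all exponents -/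
theorem exponents (hn : 1 ≤ n) {p : ℝ} (hp : 1 ≤ p) {κ : ℝ} (hκ : 0 ≤ κ) :
    ((∀ ε : ℝ, 0 < ε → ∃ C : ℝ≥0, ∀ δ : ℝ, 0 < δ → δ < 1 →
        TubeBound n p δ (C * ENNReal.ofReal (δ ^ (-(κ + ε))))) →
      ∀ ε : ℝ, 0 < ε → ∃ C : ℝ≥0, ∀ D : ℕ, 1 ≤ D →
        PolyBound n p D (C * ENNReal.ofReal ((D : ℝ) ^ (κ + ε)))) ∧
    ((∀ ε : ℝ, 0 < ε → ∃ C : ℝ≥0, ∀ D : ℕ, 1 ≤ D →
        NonnegPolyBound n p D (C * ENNReal.ofReal ((D : ℝ) ^ (κ + ε)))) →
      ∀ ε : ℝ, 0 < ε → ∃ C : ℝ≥0, ∀ δ : ℝ, 0 < δ → δ < 1 →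
        TubeBound n p δ (C * ENNReal.ofReal (δ ^ (-(κ + ε))))) := by
  constructor
  · intro h ε hε
    obtain ⟨C, hC⟩ := h ε hε
    obtain ⟨C', hC'⟩ := poly_of_tube hn hp
    -- degrees at least two
    have h1 : ∀ D : ℕ, 2 ≤ D → PolyBound n p D (C' * (C * ENNReal.ofReal ((D : ℝ) ^ (κ + ε)))) := by
      intro D hD
      have hD0 : (0 : ℝ) < D := by
        have : 0 < D := by omega
        exact_mod_cast this
      have hD1 : (1 : ℝ) < D := by exact_mod_cast (show 1 < D by omega)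
      have h2 := hC' D (by omega) _ (hC (1 / D) (by positivity) (by
        rw [div_lt_one hD0]; exact hD1))
      have e1 : (1 / (D : ℝ)) ^ (-(κ + ε)) = (D : ℝ) ^ (κ + ε) := by
        rw [one_div, Real.inv_rpow hD0.le, Real.rpow_neg hD0.le, inv_inv]
      rwa [e1] at h2
    refine ⟨C' * C * ((2 : ℝ≥0) ^ (κ + ε)), fun D hD => ?_⟩
    have hD1 : (1 : ℝ) ≤ D := by exact_mod_cast hD
    refine (h1 (2 * D) (by omega)).mono (by omega) (le_of_eq ?_)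
    have e2 : ENNReal.ofReal (((2 * D : ℕ) : ℝ) ^ (κ + ε)) =
        ((2 : ℝ≥0) ^ (κ + ε) : ℝ≥0) * ENNReal.ofReal ((D : ℝ) ^ (κ + ε)) := by
      push_cast
      rw [Real.mul_rpow (by norm_num) (by positivity), ENNReal.ofReal_mul (by positivity)]
      congr 1
      rw [← ENNReal.ofReal_rpow_of_pos (by norm_num), ENNReal.ofReal_ofNat,
        ENNReal.coe_rpow_of_nonneg _ (by positivity)]
      rfl
    rw [e2]
    push_cast
    ring
  · intro h ε hε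
    obtain ⟨C, hC⟩ := h ε hε
    obtain ⟨C', hC'⟩ := tube_of_poly hn hp
    refine ⟨C' * C * ((8 * n : ℝ≥0) ^ (κ + ε)), fun δ hδ hδ1 => ?_⟩
    have hn' : (1 : ℝ) ≤ n := by exact_mod_cast hn
    set D : ℕ := ⌈4 * n / δ⌉₊ with hD
    have hx : 1 ≤ 4 * n / δ := by
      rw [le_div_iff₀ hδ]; linarith
    have hD1 : 4 * n / δ ≤ D := Nat.le_ceil _
    have hD2 : (D : ℝ) ≤ 8 * n * (1 / δ) := by
      have h3 := (Nat.ceil_lt_add_one (by positivity : 0 ≤ 4 * n / δ)).le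
      have e1 : 8 * (n : ℝ) * (1 / δ) = 4 * n / δ + 4 * n / δ := by ring
      rw [e1]
      linarith
    have hD3 : 1 ≤ D := by
      have : (1 : ℝ) ≤ D := hx.trans hD1
      exact_mod_cast this
    refine (hC' δ hδ hδ1.le D hD1 _ (hC D hD3)).mono ?_
    have e2 : ENNReal.ofReal ((D : ℝ) ^ (κ + ε)) ≤
        ((8 * n : ℝ≥0) ^ (κ + ε) : ℝ≥0) * ENNReal.ofReal (δ ^ (-(κ + ε))) := by
      have e3 : (((8 * n : ℝ≥0) ^ (κ + ε) : ℝ≥0) : ℝ≥0∞) =
          ENNReal.ofReal ((8 * n : ℝ) ^ (κ + ε)) := by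
        rw [← ENNReal.ofReal_coe_nnreal]
        congr 1
      rw [e3, ← ENNReal.ofReal_mul (by positivity)]
      refine ENNReal.ofReal_le_ofReal ?_
      calc (D : ℝ) ^ (κ + ε) ≤ (8 * n * (1 / δ)) ^ (κ + ε) :=
            Real.rpow_le_rpow (by positivity) hD2 (by positivity)
        _ = _ := by
            rw [Real.mul_rpow (by positivity) (by positivity), one_div, Real.inv_rpow hδ.le,
              Real.rpow_neg hδ.le]
    calc (C' : ℝ≥0∞) * (C * ENNReal.ofReal ((D : ℝ) ^ (κ + ε)))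
        ≤ C' * (C * (((8 * n : ℝ≥0) ^ (κ + ε) : ℝ≥0) * ENNReal.ofReal (δ ^ (-(κ + ε))))) := by
          gcongr
      _ = _ := by push_cast; ring

theorem PolyBound.toNonneg {p : ℝ} {D : ℕ} {B : ℝ≥0∞} (h : PolyBound n p D B) :
    NonnegPolyBound n p D B := fun P hP _ => h P hP

/-- Q1 in one dimension, with the powers of the norms -/
theorem conj_iff (hn : 1 ≤ n) : KakeyaMaximalConjecture n ↔
    ∀ ε : ℝ, 0 < ε → ∃ C : ℝ≥0, ∀ δ : ℝ, 0 < δ → δ < 1 →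
      TubeBound n n δ (C * ENNReal.ofReal (δ ^ (-(0 + ε)))) := by
  have hn0 : (0 : ℝ) < n := by exact_mod_cast hn
  have hnn : ENNReal.ofReal (n : ℝ) = (n : ℝ≥0∞) := ENNReal.ofReal_natCast n
  have hnorm : ∀ f : Eu n → ℝ, eLpNorm f n volume = (∫⁻ y, ‖f y‖ₑ ^ (n : ℝ)) ^ (1 / (n : ℝ)) := by
    intro f
    rw [eLpNorm_eq_lintegral_rpow_enorm_toReal (by exact_mod_cast (show n ≠ 0 by omega))
      (ENNReal.natCast_ne_top n), ENNReal.toReal_natCast]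
  constructor
  · intro h ε hε
    obtain ⟨C, hC⟩ := h (ε / n) (by positivity)
    refine ⟨(Real.toNNReal C) ^ (n : ℝ), fun δ hδ hδ1 f hf => ?_⟩
    rw [hnn] at hf
    have h1 := ENNReal.rpow_le_rpow (hC δ hδ hδ1 f hf) hn0.le
    rw [← ENNReal.rpow_mul, one_div_mul_cancel hn0.ne', ENNReal.rpow_one, hnorm,
      ENNReal.mul_rpow_of_nonneg _ _ hn0.le, ← ENNReal.rpow_mul, one_div_mul_cancel hn0.ne',
      ENNReal.rpow_one] at h1
    refine h1.trans (mul_le_mul' (le_of_eq ?_) le_rfl)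
    have e1 : ENNReal.ofReal (δ ^ (-(ε / n))) ^ (n : ℝ) = ENNReal.ofReal (δ ^ (-(0 + ε))) := by
      rw [ENNReal.ofReal_rpow_of_nonneg (by positivity) hn0.le, ← Real.rpow_mul hδ.le]
      congr 2
      field_simp
      ring
    rw [ENNReal.ofReal_mul' (by positivity), ENNReal.mul_rpow_of_nonneg _ _ hn0.le, e1,
      ENNReal.coe_rpow_of_nonneg _ hn0.le]
    rfl
  · intro h ε hε
    obtain ⟨C, hC⟩ := h (n * ε) (by positivity)
    refine ⟨(C : ℝ) ^ (1 / (n : ℝ)), fun δ hδ hδ1 f hf => ?_⟩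
    rw [← hnn] at hf
    have h1 := ENNReal.rpow_le_rpow (hC δ hδ hδ1 f hf) (z := 1 / (n : ℝ)) (by positivity)
    refine h1.trans (le_of_eq ?_)
    have e1 : ENNReal.ofReal (δ ^ (-(0 + n * ε))) ^ (1 / (n : ℝ)) = ENNReal.ofReal (δ ^ (-ε)) := by
      rw [ENNReal.ofReal_rpow_of_nonneg (by positivity) (by positivity), ← Real.rpow_mul hδ.le]
      congr 2
      field_simp
      ring
    have e2 : ENNReal.ofReal ((C : ℝ) ^ (1 / (n : ℝ))) = (C : ℝ≥0∞) ^ (1 / (n : ℝ)) := by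
      rw [← ENNReal.ofReal_rpow_of_nonneg (NNReal.coe_nonneg C) (by positivity),
        ENNReal.ofReal_coe_nnreal]
    rw [hnorm, ENNReal.mul_rpow_of_nonneg _ _ (by positivity),
      ENNReal.mul_rpow_of_nonneg _ _ (by positivity), e1, ENNReal.ofReal_mul (by positivity), e2]

/-- Q1 in one dimension -/
theorem conj_poly (hn : 1 ≤ n) : KakeyaMaximalConjecture n ↔
    ∀ ε : ℝ, 0 < ε → ∃ C : ℝ≥0, ∀ D : ℕ, 1 ≤ D →
      PolyBound n n D (C * ENNReal.ofReal ((D : ℝ) ^ ε)) := by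
  have hn' : (1 : ℝ) ≤ n := by exact_mod_cast hn
  have h := exponents hn hn' (κ := 0) le_rfl
  rw [conj_iff hn]
  constructor
  · intro h1 ε hε
    have h2 := h.1 h1 ε hε
    simpa only [zero_add] using h2
  · intro h1
    refine h.2 fun ε hε => ?_
    obtain ⟨C, hC⟩ := h1 ε hε
    exact ⟨C, fun D hD => by rw [zero_add]; exact (hC D hD).toNonneg⟩

/-- the range of Wolff -/
theorem wolff (hn : 3 ≤ n) {p : ℝ} (hp1 : 1 < p) (hp : p < ((n : ℝ) + 2) / 2) :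
    ∃ C : ℝ≥0, ∀ D : ℕ, 1 ≤ D → PolyBound n p D (C * ENNReal.ofReal ((D : ℝ) ^ ((n : ℝ) - p))) := by
  obtain ⟨C, hC, hW⟩ := Pool.Agent.Results.MP_5168f5_an.WolffRangeMaximal.result n hn p _ hp1 hp rfl
  obtain ⟨C', hC'⟩ := poly_of_tube (n := n) (by omega) hp1.le
  have hnp : 0 ≤ (n : ℝ) - p := by
    have : (3 : ℝ) ≤ n := by exact_mod_cast hn
    linarith
  have h1 : ∀ D : ℕ, 2 ≤ D →
      PolyBound n p D (C' * ENNReal.ofReal (C * (D : ℝ) ^ ((n : ℝ) - p))) := by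
    intro D hD
    have hD0 : (0 : ℝ) < D := by exact_mod_cast (show 0 < D by omega)
    have hD1 : (1 : ℝ) < D := by exact_mod_cast (show 1 < D by omega)
    have e1 : (1 / (D : ℝ)) ^ (-((n : ℝ) - p)) = (D : ℝ) ^ ((n : ℝ) - p) := by
      rw [one_div, Real.inv_rpow hD0.le, Real.rpow_neg hD0.le, inv_inv]
    refine hC' D (by omega) _ fun f hf => ?_
    have h2 := (hW (1 / D) (by positivity) (by rw [div_lt_one hD0]; exact hD1) f
      hf.1.aemeasurable).1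
    rw [e1] at h2
    exact h2
  refine ⟨C' * Real.toNNReal (C * 2 ^ ((n : ℝ) - p)), fun D hD => ?_⟩
  refine (h1 (2 * D) (by omega)).mono (by omega) (le_of_eq ?_)
  push_cast
  rw [Real.mul_rpow (by norm_num) (by positivity), ← mul_assoc C, ENNReal.ofReal_mul (by positivity),
    mul_assoc]
  rfl

/-- **The Kakeya maximal function conjecture, segments and polynomials.** -/
theorem result :
    -- (1) comparison of the best constants, for all exponents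
    (∀ (n : ℕ) (p : ℝ), 2 ≤ n → 1 ≤ p → ∃ C : ℝ≥0,
      (∀ D : ℕ, 1 ≤ D → ∀ A : ℝ≥0∞, TubeBound n p (1 / D) A → PolyBound n p D (C * A)) ∧
      (∀ δ : ℝ, 0 < δ → δ ≤ 1 → ∀ D : ℕ, 4 * n / δ ≤ D → ∀ B : ℝ≥0∞,
        NonnegPolyBound n p D B → TubeBound n p δ (C * B))) ∧
    -- (2) equality of the growth exponents
    (∀ (n : ℕ) (p κ : ℝ), 2 ≤ n → 1 ≤ p → 0 ≤ κ →
      ((∀ ε : ℝ, 0 < ε → ∃ C : ℝ≥0, ∀ δ : ℝ, 0 < δ → δ < 1 →
          TubeBound n p δ (C * ENNReal.ofReal (δ ^ (-(κ + ε))))) ↔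
        ∀ ε : ℝ, 0 < ε → ∃ C : ℝ≥0, ∀ D : ℕ, 1 ≤ D →
          PolyBound n p D (C * ENNReal.ofReal ((D : ℝ) ^ (κ + ε)))) ∧
      ((∀ ε : ℝ, 0 < ε → ∃ C : ℝ≥0, ∀ δ : ℝ, 0 < δ → δ < 1 →
          TubeBound n p δ (C * ENNReal.ofReal (δ ^ (-(κ + ε))))) ↔
        ∀ ε : ℝ, 0 < ε → ∃ C : ℝ≥0, ∀ D : ℕ, 1 ≤ D →
          NonnegPolyBound n p D (C * ENNReal.ofReal ((D : ℝ) ^ (κ + ε))))) ∧
    -- (3) Q1, in each dimension and in all dimensions
    (∀ n : ℕ, 2 ≤ n → (KakeyaMaximalConjecture n ↔ ∀ ε : ℝ, 0 < ε → ∃ C : ℝ≥0, ∀ D : ℕ, 1 ≤ D →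
      PolyBound n n D (C * ENNReal.ofReal ((D : ℝ) ^ ε)))) ∧
    ((∀ n : ℕ, 3 ≤ n → KakeyaMaximalConjecture n) ↔
      ∀ n : ℕ, 3 ≤ n → ∀ ε : ℝ, 0 < ε → ∃ C : ℝ≥0, ∀ D : ℕ, 1 ≤ D →
        PolyBound n n D (C * ENNReal.ofReal ((D : ℝ) ^ ε))) ∧
    -- (4) the range of Wolff
    (∀ (n : ℕ) (p : ℝ), 3 ≤ n → 1 < p → p < ((n : ℝ) + 2) / 2 → ∃ C : ℝ≥0, ∀ D : ℕ, 1 ≤ D →
      PolyBound n p D (C * ENNReal.ofReal ((D : ℝ) ^ ((n : ℝ) - p)))) ∧
    -- (5) the power in (4) is the best possible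
    (∀ (n : ℕ) (p : ℝ), 2 ≤ n → 1 ≤ p → ∃ c : ℝ≥0, 0 < c ∧ ∀ D : ℕ, 1 ≤ D →
      ∃ P : MvPolynomial (Fin n) ℝ, P.totalDegree ≤ D ∧ (∀ x : Eu n, 0 ≤ val P x) ∧
        val P (0 : Eu n) = 1 ∧
        c * ENNReal.ofReal ((D : ℝ) ^ ((n : ℝ) - p)) * ∫⁻ y in cube n 2, ‖val P y‖ₑ ^ p ≤
          ∫⁻ e, segmentMax P (e : Eu n) ^ p ∂(surf n)) := by
  refine ⟨fun n p hn hp => ?_, fun n p κ hn hp hκ => ?_, fun n hn => conj_poly (by omega), ?_,
    fun n p hn hp1 hp => wolff hn hp1 hp, fun n p hn hp => bump (by omega) hp⟩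
  · obtain ⟨C₁, h1⟩ := poly_of_tube (n := n) (by omega) hp
    obtain ⟨C₂, h2⟩ := tube_of_poly (n := n) (by omega) hp
    refine ⟨C₁ + C₂, fun D hD A hA => (h1 D hD A hA).mono le_rfl ?_,
      fun δ hδ hδ1 D hD B hB => (h2 δ hδ hδ1 D hD B hB).mono ?_⟩
    · gcongr
      exact le_self_add
    · gcongr
      exact le_add_self
  · have h := exponents (n := n) (by omega) hp hκ
    exact ⟨⟨h.1, fun h1 => h.2 fun ε hε => (h1 ε hε).imp fun C hC D hD => (hC D hD).toNonneg⟩,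
      ⟨fun h1 ε hε => (h.1 h1 ε hε).imp fun C hC D hD => (hC D hD).toNonneg, h.2⟩⟩
  · exact ⟨fun h n hn => (conj_poly (by omega)).1 (h n hn),
      fun h n hn => (conj_poly (by omega)).2 (h n hn)⟩

end Pool.Agent.Results.MP_5168f5_an.SegmentsAndPolynomials
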