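import Pool.Agent.H565.PL.Spread
import Pool.Agent.H565.PL.Sum

/-!
# MP_5168f5_an: the Kakeya maximal inequalities for spread bushes, and their reduction to tubes
# tangent to a field of planes

Let `2 ≤ k ≤ n`; `k = n` is the case of Q1. The conjectured (and best possible) loss of the Kakeya
maximal function in `L^k(ℝ^n)` is `∫ (f*_δ)^k ≤ C_ε δ^(-(n - k) - ε) ∫ |f|^k`.

**1. Spread bushes.** For each unit vector `e` let a tube `T_e^δ(a e)` be given; the function `a` is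
arbitrary. `SpreadAt k β B δ a x`: the directions of the tubes that contain `x` are at most
`β`-dimensional along the linear subspaces `V` of dimension less than `k`: for `δ ≤ r ≤ ρ`, those in
a ball of radius `ρ` and within `r` of `V` can be covered by `B (ρ / r)^β` balls of radius `r`.
Let `G` be any set of such points. Then, with `C = C(n, k, β, B)`,
`∫ (|T|⁻¹ ∫_{T_e^δ(a e) ∩ G} |f|)^k de ≤ C exp (C √log (1/δ)) δ^(-max (n - k) β) ∫ |f|^k`.
For `k = n` and `β = 0` this is the estimate of Q1 for the points at which the bushes do not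
concentrate along hyperplanes; for `β ≤ n - k` it is the conjectured estimate in `L^k`.

**2. Reduction to tangential tubes.** For a field of linear subspaces `V y ⊆ ℝ^n` (`y ∈ ℝ^n`) and an
angle `r > 0`, `tangentMax δ r V f e` is the same supremum as `f*_δ (e)`, except that `|f|` is
integrated only over the points `y` of the tube `T_e^δ(a)` at which the tube is tangent to the field:
`dist(e, V y) < r`.

* `FullBound n k s`: `∫ (f*_δ)^k ≤ C δ^(-s) ∫ |f|^k` for all `f` and all `0 < δ < 1`.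
* `TangentBound n k η s`: the same for `tangentMax δ (δ^η) V f`, with one constant for all fields `V`
  of subspaces of dimension less than `k` (with finitely many values and measurable level sets).

There is a constant `c` (depending on `n` and `k` only) such that `TangentBound n k η s` implies
`FullBound n k (s + c η)`, for all `0 < η ≤ 1` and `s ≥ n - k`. So for `s ≥ n - k`, `FullBound` with
all the losses `s + ε` is equivalent to `TangentBound` with all the losses `s + ε` and all `η > 0`.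

**3.** Q1 holds if and only if its tangential form holds: for all `n ≥ 3`, `η > 0` and `ε > 0` there is
`C` such that `‖tangentMax δ (δ^η) V f‖_{L^n} ≤ C δ^(-ε) ‖f‖_{L^n}` for all `f`, `δ` and all fields `V`
of linear subspaces of dimension less than `n`, i.e. of hyperplanes.

The proofs use the `k`-linear Kakeya inequality (proved here, with a loss) and a Bourgain-Guth
argument: for 1 with many scales and for 2 with `δ^(-η)` in the place of a large constant.
-/

set_option autoImplicit false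

open MeasureTheory
open scoped ENNReal

namespace Pool.Agent.Results.MP_5168f5_an.TangentialReduction

/-- Euclidean space `ℝ^n`. -/
abbrev E (n : ℕ) : Type := EuclideanSpace ℝ (Fin n)

/-- The closed tube `T_e^δ(a)` of length `1` and radius `δ` with centre `a` and direction `e`. -/
def tube {n : ℕ} (δ : ℝ) (a e : E n) : Set (E n) :=
  {y | |inner ℝ (y - a) e| ≤ 1 / 2 ∧ ‖(y - a) - (inner ℝ (y - a) e : ℝ) • e‖ ≤ δ}

/-- The Kakeya maximal function `f*_δ (e)`. -/
noncomputable def kakeyaMax {n : ℕ} (δ : ℝ) (f : E n → ℝ) (e : E n) : ℝ≥0∞ :=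
  ⨆ a : E n, (volume (tube δ a e))⁻¹ * ∫⁻ y in tube δ a e, ‖f y‖ₑ

/-- The tangential Kakeya maximal function: only the points `y` of the tubes `T_e^δ(a)` with
`dist(e, V y) < r` are taken into account. -/
noncomputable def tangentMax {n : ℕ} (δ r : ℝ) (V : E n → Submodule ℝ (E n)) (f : E n → ℝ)
    (e : E n) : ℝ≥0∞ :=
  ⨆ a : E n, (volume (tube δ a e))⁻¹ *
    ∫⁻ y in tube δ a e ∩ {y | Metric.infDist e (V y) < r}, ‖f y‖ₑ

/-- The surface measure of the unit sphere of `ℝ^n`. -/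
noncomputable abbrev surf (n : ℕ) : Measure (Metric.sphere (0 : E n) 1) :=
  (volume : Measure (E n)).toSphere

/-- For the tubes `T_e^δ(a e)`, one for each unit vector `e`: the directions of the tubes that
contain `x` are at most `β`-dimensional along the linear subspaces of dimension less than `k`. -/
def SpreadAt {n : ℕ} (k : ℕ) (β B δ : ℝ) (a : E n → E n) (x : E n) : Prop :=
  ∀ (y : E n) (V : Submodule ℝ (E n)), Module.finrank ℝ V < k → ∀ r ρ : ℝ, δ ≤ r → r ≤ ρ →
    ∃ Z : Finset (E n), (Z.card : ℝ) ≤ B * (ρ / r) ^ β ∧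
      ∀ e : E n, ‖e‖ = 1 → x ∈ tube δ (a e) e → ‖e - y‖ ≤ ρ → Metric.infDist e V ≤ r →
        ∃ z ∈ Z, ‖e - z‖ ≤ r

/-- The maximal inequality `∫ (f*_δ)^k ≤ C δ^(-s) ∫ |f|^k`. -/
def FullBound (n k : ℕ) (s : ℝ) : Prop :=
  ∃ C : ℝ, ∀ δ : ℝ, 0 < δ → δ < 1 → ∀ f : E n → ℝ, AEMeasurable f volume →
    ∫⁻ e, kakeyaMax δ f (e : E n) ^ k ∂(surf n) ≤
      ENNReal.ofReal (C * δ ^ (-s)) * ∫⁻ y, ‖f y‖ₑ ^ k

/-- The tangential maximal inequality, with tangency up to `δ^η`, with one constant for all fields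
of subspaces of dimension less than `k`. -/
def TangentBound (n k : ℕ) (η s : ℝ) : Prop :=
  ∃ C : ℝ, ∀ δ : ℝ, 0 < δ → δ < 1 → ∀ V : SimpleFunc (E n) (Submodule ℝ (E n)),
    (∀ x, Module.finrank ℝ (V x) < k) → ∀ f : E n → ℝ, AEMeasurable f volume →
    ∫⁻ e, tangentMax δ (δ ^ η) V f (e : E n) ^ k ∂(surf n) ≤
      ENNReal.ofReal (C * δ ^ (-s)) * ∫⁻ y, ‖f y‖ₑ ^ k

/-- Q1: the Kakeya maximal conjecture. -/
def Q1 : Prop :=
  ∀ n : ℕ, 3 ≤ n → ∀ ε : ℝ, 0 < ε → ∃ C : ℝ, 0 ≤ C ∧ ∀ (f : E n → ℝ) (δ : ℝ),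
    MemLp f n volume → 0 < δ → δ < 1 →
    (∫⁻ e, kakeyaMax δ f (e : E n) ^ n ∂(surf n)) ^ (1 / (n : ℝ)) ≤
      ENNReal.ofReal (C * δ ^ (-ε)) * eLpNorm f n volume

/-- The tangential form of Q1, for all fields of subspaces of dimension less than `n`. -/
def TangentialQ1 : Prop :=
  ∀ n : ℕ, 3 ≤ n → ∀ η ε : ℝ, 0 < η → 0 < ε → ∃ C : ℝ, 0 ≤ C ∧ ∀ (f : E n → ℝ) (δ : ℝ)
    (V : SimpleFunc (E n) (Submodule ℝ (E n))), MemLp f n volume → 0 < δ → δ < 1 →
    (∀ x, Module.finrank ℝ (V x) < n) →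
    (∫⁻ e, tangentMax δ (δ ^ η) V f (e : E n) ^ n ∂(surf n)) ^ (1 / (n : ℝ)) ≤
      ENNReal.ofReal (C * δ ^ (-ε)) * eLpNorm f n volume

theorem tangentMax_le {n : ℕ} (δ r : ℝ) (V : E n → Submodule ℝ (E n)) (f : E n → ℝ) (e : E n) :
    tangentMax δ r V f e ≤ kakeyaMax δ f e :=
  iSup_mono fun _ => mul_le_mul_right (lintegral_mono_set Set.inter_subset_left) _

theorem FullBound.tangent {n k : ℕ} {s : ℝ} (h : FullBound n k s) (η : ℝ) :
    TangentBound n k η s := by
  obtain ⟨C, hC⟩ := h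
  exact ⟨C, fun δ hδ hδ1 V _ f hf => (lintegral_mono fun e =>
    pow_le_pow_left₀ zero_le (tangentMax_le _ _ _ _ _) k).trans (hC δ hδ hδ1 f hf)⟩

theorem rpow_inv' {δ : ℝ} (hδ : 0 < δ) (s : ℝ) : (1 / δ) ^ s = δ ^ (-s) := by
  rw [one_div, Real.inv_rpow hδ.le, Real.rpow_neg hδ.le]

/-- The tangential inequality implies the full inequality. -/
theorem full_of_tangent {n k : ℕ} (hk : 2 ≤ k) (hkn : k ≤ n) : ∃ c : ℝ, 0 < c ∧
    ∀ η s : ℝ, 0 < η → η ≤ 1 → (n : ℝ) - k ≤ s → TangentBound n k η s →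
      FullBound n k (s + c * η) := by
  have hk2 : (2 : ℝ) ≤ k := by exact_mod_cast hk
  have hk1 : (0 : ℝ) < (k : ℝ) - 1 := by linarith
  have hknr : (k : ℝ) ≤ n := by exact_mod_cast hkn
  have hn : 1 ≤ n := by omega
  obtain ⟨C₁, hC₁, hfull⟩ := Pool.Agent.H565.PL.full_of_PT (n := n) hk hkn
  obtain ⟨C₂, hC₂, hmax⟩ := Pool.Agent.H565.PL.max_of_tubes (n := n) hk hn
  refine ⟨C₁ * ((k : ℝ) - 1), by positivity, ?_⟩
  intro η s hη hη1 hs ⟨C, hC⟩
  have hs0 : 0 ≤ s := by linarith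
  obtain ⟨C₃, hC₃, hPT⟩ := Pool.Agent.H565.PL.PT_of_max (n := n) hk hn hη hη1 hs0
    (le_max_right C 0) (fun δ hδ hδ1 V hV g hg hgt => by
      have h1 := hC δ hδ hδ1 V hV (fun y => (g y).toReal) hg.ennreal_toReal.aemeasurable
      have h3 : ∀ y, ‖(g y).toReal‖ₑ = g y := fun y => by
        rw [Real.enorm_eq_ofReal ENNReal.toReal_nonneg, ENNReal.ofReal_toReal (hgt y)]
      have h4 : ∀ e : E n, tangentMax δ (δ ^ η) V (fun y => (g y).toReal) e =
          Pool.Agent.H565.PL.kmaxT δ (δ ^ η) V g e := by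
        intro e
        unfold tangentMax
        simp only [h3]
        rfl
      simp only [h4, h3] at h1
      simp only [ENNReal.rpow_natCast]
      refine h1.trans (mul_le_mul_left (ENNReal.ofReal_le_ofReal ?_) _)
      rw [rpow_inv' hδ]
      have h5 : 0 ≤ δ ^ (-s) := by positivity
      exact mul_le_mul_of_nonneg_right (le_max_left _ _) h5)
  obtain ⟨C₄, hC₄, htube⟩ := hfull (s / ((k : ℝ) - 1)) η C₃
    (div_le_div_of_nonneg_right hs hk1.le) hη hC₃ hPT
  refine ⟨C₂ * (C₄ + 1) ^ ((k : ℝ) - 1), ?_⟩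
  intro δ hδ hδ1 f hf
  have hv0 : 0 < (1 / δ) ^ (s / ((k : ℝ) - 1) + C₁ * η) := by positivity
  have h1 := hmax δ ((C₄ + 1) * (1 / δ) ^ (s / ((k : ℝ) - 1) + C₁ * η)) hδ hδ1 (by positivity)
    (by
      intro ι _ a e he hsep c hc
      refine (htube δ hδ hδ1 ι a e he hsep c hc).trans
        (mul_le_mul_left (ENNReal.ofReal_le_ofReal ?_) _)
      gcongr
      linarith)
    (fun y => ‖f y‖ₑ) hf.enorm
  simp only [ENNReal.rpow_natCast] at h1
  refine (show _ ≤ _ from h1).trans (mul_le_mul_left (ENNReal.ofReal_le_ofReal (le_of_eq ?_)) _)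
  rw [Real.mul_rpow (by positivity) hv0.le, ← Real.rpow_mul (by positivity), rpow_inv' hδ,
    mul_assoc]
  congr 3
  field_simp

theorem FullBound.mono {n k : ℕ} {s s' : ℝ} (h : FullBound n k s) (hs : s ≤ s') :
    FullBound n k s' := by
  obtain ⟨C, hC⟩ := h
  refine ⟨max C 0, fun δ hδ hδ1 f hf => (hC δ hδ hδ1 f hf).trans
    (mul_le_mul_left (ENNReal.ofReal_le_ofReal ?_) _)⟩
  have h1 : δ ^ (-s) ≤ δ ^ (-s') := Real.rpow_le_rpow_of_exponent_ge hδ hδ1.le (by linarith)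
  have h2 : 0 ≤ δ ^ (-s) := by positivity
  calc C * δ ^ (-s) ≤ max C 0 * δ ^ (-s) := mul_le_mul_of_nonneg_right (le_max_left _ _) h2
    _ ≤ max C 0 * δ ^ (-s') := mul_le_mul_of_nonneg_left h1 (le_max_right _ _)

theorem iff_tangent {n k : ℕ} (hk : 2 ≤ k) (hkn : k ≤ n) (s : ℝ) (hs : (n : ℝ) - k ≤ s) :
    (∀ ε : ℝ, 0 < ε → FullBound n k (s + ε)) ↔
      ∀ η ε : ℝ, 0 < η → 0 < ε → TangentBound n k η (s + ε) := by
  constructor
  · exact fun h η ε _ hε => (h ε hε).tangent η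
  · intro h ε hε
    obtain ⟨c, hc, hfull⟩ := full_of_tangent (n := n) hk hkn
    have h1 : 0 < min (ε / (2 * c)) 1 := lt_min (by positivity) one_pos
    refine (hfull (min (ε / (2 * c)) 1) (s + ε / 2) h1 (min_le_right _ _) (by linarith)
      (h _ (ε / 2) h1 (by positivity))).mono ?_
    have h2 : c * min (ε / (2 * c)) 1 ≤ ε / 2 := by
      calc c * min (ε / (2 * c)) 1 ≤ c * (ε / (2 * c)) :=
            mul_le_mul_of_nonneg_left (min_le_left _ _) hc.le
        _ = ε / 2 := by field_simp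
    linarith

/-- The norms and the powers of the norms. -/
theorem norm_iff {n : ℕ} (hn : 3 ≤ n) {C δ ε : ℝ} (hC : 0 ≤ C) (hδ : 0 < δ) (I : ℝ≥0∞)
    (f : E n → ℝ) :
    I ≤ ENNReal.ofReal (C ^ n * δ ^ (-((n : ℝ) * ε))) * ∫⁻ y, ‖f y‖ₑ ^ n ↔
      I ^ (1 / (n : ℝ)) ≤ ENNReal.ofReal (C * δ ^ (-ε)) * eLpNorm f n volume := by
  have hn0 : (n : ℝ) ≠ 0 := by
    have : (3 : ℝ) ≤ n := by exact_mod_cast hn
    linarith
  have hn1 : (n : ℝ≥0∞) ≠ 0 := by
    have : n ≠ 0 := by omega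
    exact_mod_cast this
  have hn2 : (0 : ℝ) < n := by positivity
  have e1 : eLpNorm f n volume = (∫⁻ y, ‖f y‖ₑ ^ n) ^ (1 / (n : ℝ)) := by
    rw [eLpNorm_eq_lintegral_rpow_enorm_toReal hn1 (ENNReal.natCast_ne_top n),
      ENNReal.toReal_natCast]
    simp only [ENNReal.rpow_natCast]
  have e2 : ENNReal.ofReal (C * δ ^ (-ε)) * eLpNorm f n volume =
      (ENNReal.ofReal (C ^ n * δ ^ (-((n : ℝ) * ε))) * ∫⁻ y, ‖f y‖ₑ ^ n) ^ (1 / (n : ℝ)) := by
    rw [e1, ENNReal.mul_rpow_of_nonneg _ _ (by positivity),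
      ENNReal.ofReal_rpow_of_nonneg (by positivity) (by positivity)]
    congr 2
    rw [Real.mul_rpow (by positivity) (by positivity), ← Real.rpow_natCast C n,
      ← Real.rpow_mul hC, ← Real.rpow_mul hδ.le, mul_one_div_cancel hn0, Real.rpow_one]
    congr 2
    field_simp
  rw [e2, ENNReal.rpow_le_rpow_iff (by positivity)]

theorem q1_iff : Q1 ↔ ∀ n : ℕ, 3 ≤ n → ∀ ε : ℝ, 0 < ε → FullBound n n ((n : ℝ) - n + ε) := by
  constructor
  · intro h n hn ε hε
    have hn2 : (0 : ℝ) < n := by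
      have : 0 < n := by omega
      exact_mod_cast this
    obtain ⟨C, hC, hb⟩ := h n hn (ε / n) (by positivity)
    refine ⟨C ^ n + 1, fun δ hδ hδ1 f hf => ?_⟩
    have e1 : (n : ℝ) * (ε / n) = (n : ℝ) - n + ε := by field_simp; ring
    rcases eq_or_ne (∫⁻ y, ‖f y‖ₑ ^ n) ∞ with hI | hI
    · rw [hI, ENNReal.mul_top]
      · exact le_top
      · rw [Ne, ENNReal.ofReal_eq_zero, not_le]
        positivity
    have hm : MemLp f n volume := by
      refine ⟨hf.aestronglyMeasurable, ?_⟩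
      have hn1 : (n : ℝ≥0∞) ≠ 0 := by
        have : n ≠ 0 := by omega
        exact_mod_cast this
      rw [eLpNorm_lt_top_iff_lintegral_rpow_enorm_lt_top hn1 (ENNReal.natCast_ne_top n),
        ENNReal.toReal_natCast]
      simp only [ENNReal.rpow_natCast]
      exact hI.lt_top
    have h1 := (norm_iff hn hC hδ _ f).2 (hb f δ hm hδ hδ1)
    rw [e1] at h1
    refine h1.trans (mul_le_mul_left (ENNReal.ofReal_le_ofReal ?_) _)
    gcongr
    linarith
  · intro h n hn ε hε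
    have hn2 : (0 : ℝ) < n := by
      have : 0 < n := by omega
      exact_mod_cast this
    obtain ⟨C, hb⟩ := h n hn (n * ε) (by positivity)
    refine ⟨(max C 0) ^ (1 / (n : ℝ)), by positivity, fun f δ hm hδ hδ1 => ?_⟩
    refine (norm_iff hn (by positivity) hδ _ f).1 ?_
    refine (hb δ hδ hδ1 f hm.1.aemeasurable).trans
      (mul_le_mul_left (ENNReal.ofReal_le_ofReal ?_) _)
    rw [← Real.rpow_natCast ((max C 0) ^ (1 / (n : ℝ))) n, ← Real.rpow_mul (le_max_right _ _),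
      one_div_mul_cancel hn2.ne', Real.rpow_one, sub_self, zero_add]
    have h5 : 0 ≤ δ ^ (-((n : ℝ) * ε)) := by positivity
    exact mul_le_mul_of_nonneg_right (le_max_left _ _) h5

theorem tangentialQ1_iff : TangentialQ1 ↔ ∀ n : ℕ, 3 ≤ n → ∀ η ε : ℝ, 0 < η → 0 < ε →
    TangentBound n n η ((n : ℝ) - n + ε) := by
  constructor
  · intro h n hn η ε hη hε
    have hn2 : (0 : ℝ) < n := by
      have : 0 < n := by omega
      exact_mod_cast this
    obtain ⟨C, hC, hb⟩ := h n hn η (ε / n) hη (by positivity)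
    refine ⟨C ^ n + 1, fun δ hδ hδ1 V hV f hf => ?_⟩
    have e1 : (n : ℝ) * (ε / n) = (n : ℝ) - n + ε := by field_simp; ring
    rcases eq_or_ne (∫⁻ y, ‖f y‖ₑ ^ n) ∞ with hI | hI
    · rw [hI, ENNReal.mul_top]
      · exact le_top
      · rw [Ne, ENNReal.ofReal_eq_zero, not_le]
        positivity
    have hm : MemLp f n volume := by
      refine ⟨hf.aestronglyMeasurable, ?_⟩
      have hn1 : (n : ℝ≥0∞) ≠ 0 := by
        have : n ≠ 0 := by omega
        exact_mod_cast this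
      rw [eLpNorm_lt_top_iff_lintegral_rpow_enorm_lt_top hn1 (ENNReal.natCast_ne_top n),
        ENNReal.toReal_natCast]
      simp only [ENNReal.rpow_natCast]
      exact hI.lt_top
    have h1 := (norm_iff hn hC hδ _ f).2 (hb f δ V hm hδ hδ1 hV)
    rw [e1] at h1
    refine h1.trans (mul_le_mul_left (ENNReal.ofReal_le_ofReal ?_) _)
    gcongr
    linarith
  · intro h n hn η ε hη hε
    have hn2 : (0 : ℝ) < n := by
      have : 0 < n := by omega
      exact_mod_cast this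
    obtain ⟨C, hb⟩ := h n hn η (n * ε) hη (by positivity)
    refine ⟨(max C 0) ^ (1 / (n : ℝ)), by positivity, fun f δ V hm hδ hδ1 hV => ?_⟩
    refine (norm_iff hn (by positivity) hδ _ f).1 ?_
    refine (hb δ hδ hδ1 V hV f hm.1.aemeasurable).trans
      (mul_le_mul_left (ENNReal.ofReal_le_ofReal ?_) _)
    rw [← Real.rpow_natCast ((max C 0) ^ (1 / (n : ℝ))) n, ← Real.rpow_mul (le_max_right _ _),
      one_div_mul_cancel hn2.ne', Real.rpow_one, sub_self, zero_add]
    have h5 : 0 ≤ δ ^ (-((n : ℝ) * ε)) := by positivity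
    exact mul_le_mul_of_nonneg_right (le_max_left _ _) h5

/-- **The Kakeya maximal inequalities for spread bushes, and their reduction to tubes tangent to a
field of planes.** -/
theorem result :
    -- 1. spread bushes
    (∀ n k : ℕ, 2 ≤ k → k ≤ n → ∀ β B : ℝ, 0 ≤ β → 1 ≤ B → ∃ C : ℝ, 0 < C ∧
      ∀ δ : ℝ, 0 < δ → δ < 1 → ∀ (a : E n → E n) (G : Set (E n)),
      (∀ x ∈ G, SpreadAt k β B δ a x) → ∀ f : E n → ℝ, AEMeasurable f volume →
      ∫⁻ e, ((volume (tube δ (a e) (e : E n)))⁻¹ *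
          ∫⁻ y in tube δ (a e) (e : E n) ∩ G, ‖f y‖ₑ) ^ k ∂(surf n) ≤
        ENNReal.ofReal (C * Real.exp (C * √(Real.log (1 / δ))) * δ ^ (-max ((n : ℝ) - k) β)) *
          ∫⁻ y, ‖f y‖ₑ ^ k) ∧
    -- 2. reduction to tangential tubes
    (∀ n k : ℕ, 2 ≤ k → k ≤ n →
      (∃ c : ℝ, 0 < c ∧ ∀ η s : ℝ, 0 < η → η ≤ 1 → (n : ℝ) - k ≤ s →
        TangentBound n k η s → FullBound n k (s + c * η)) ∧
      ∀ s : ℝ, (n : ℝ) - k ≤ s →
        ((∀ ε : ℝ, 0 < ε → FullBound n k (s + ε)) ↔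
          ∀ η ε : ℝ, 0 < η → 0 < ε → TangentBound n k η (s + ε))) ∧
    -- 3. Q1
    (Q1 ↔ TangentialQ1) := by
  refine ⟨fun n k hk hkn β B hβ hB => ?_, fun n k hk hkn => ⟨full_of_tangent hk hkn, fun s hs =>
    iff_tangent hk hkn s hs⟩, ?_⟩
  · obtain ⟨C, hC, h⟩ := Pool.Agent.H565.PL.spread_max (n := n) hk hkn β B hβ hB
    refine ⟨C, hC, fun δ hδ hδ1 a G hG f hf => ?_⟩
    have h1 := h δ hδ hδ1 a G hG (fun y => ‖f y‖ₑ) hf.enorm
    simp only [ENNReal.rpow_natCast] at h1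
    rw [rpow_inv' hδ] at h1
    exact h1
  · rw [q1_iff, tangentialQ1_iff]
    exact forall_congr' fun n => forall_congr' fun hn =>
      iff_tangent (by omega) le_rfl _ le_rfl

end Pool.Agent.Results.MP_5168f5_an.TangentialReduction
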